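import Mathlib
import Pool.Agent.Y263.GF.Alg

/-!
# The corona problem on the ball is local over the algebra of the functions with affine fibres

Refinement of `Pool.Agent.Y263.LF.local_main`: neighbourhoods of boundary points are replaced by the
fibres of the closed algebra generated by a set `𝓡` for which the corona theorem for tuples holds.
-/

set_option autoImplicit false
set_option linter.unusedSectionVars false

open Metric Set Filter Topology Complex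

namespace Pool.Agent.R314.CorLoc

open Pool.Agent.Y263.LF Pool.Agent.Y263.GF

variable {X : Type} [NormedAddCommGroup X] [InnerProductSpace ℂ X] [FiniteDimensional ℂ X]

/-- the functions which can be approximated uniformly on the ball by polynomials in the functions of
`T` -/
def Cl (T : Set (X → ℂ)) : Set (X → ℂ) :=
  {a | ∀ ε : ℝ, 0 < ε → ∃ b ∈ Algebra.adjoin ℂ T, ∀ z ∈ ball (0 : X) 1, ‖a z - b z‖ ≤ ε}

/-- the fibre of the ultrafilter `𝒰` -/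
noncomputable def Fib (𝓡 : Set (X → ℂ)) (𝒰 : Ultrafilter X) : Filter X :=
  𝓟 (ball 0 1) ⊓ ⨅ (h : X → ℂ) (_ : h ∈ 𝓡) (c : ℂ) (_ : Tendsto h 𝒰 (𝓝 c)), comap h (𝓝 c)

/-- bounded holomorphic functions -/
def Bh (F : X → ℂ) : Prop :=
  DifferentiableOn ℂ F (ball 0 1) ∧ ∃ C : ℝ, ∀ z ∈ ball (0 : X) 1, ‖F z‖ ≤ C

theorem Bh.exists {F : X → ℂ} (h : Bh F) : ∃ φ : Hb X, ∀ z : ball (0 : X) 1, evH z φ = F z := by
  obtain ⟨hd, C, hC⟩ := h
  exact ⟨mkH F hd C hC, fun z => rfl⟩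

/-- polynomials in functions of the set `T` are elements of the algebra -/
theorem adj {𝓡 : Set (X → ℂ)} (h𝓡 : ∀ h ∈ 𝓡, Bh h) {G : X → ℂ} {G' : Hb X}
    (hG : ∀ z : ball (0 : X) 1, evH z G' = G z) {b : X → ℂ}
    (hb : b ∈ Algebra.adjoin ℂ (insert G 𝓡)) :
    ∃ b' ∈ Algebra.adjoin ℂ (insert G' (SR 𝓡)), ∀ z : ball (0 : X) 1, evH z b' = b z := by
  induction hb using Algebra.adjoin_induction with
  | mem x hx =>
    rcases hx with rfl | hx
    · exact ⟨G', Algebra.subset_adjoin (mem_insert _ _), hG⟩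
    · obtain ⟨φ, hφ⟩ := (h𝓡 x hx).exists
      exact ⟨φ, Algebra.subset_adjoin (mem_insert_of_mem _ ⟨x, hx, hφ⟩), hφ⟩
  | algebraMap c =>
    refine ⟨algebraMap ℂ _ c, Subalgebra.algebraMap_mem _ _, fun z => ?_⟩
    rw [AlgHom.commutes]
    rfl
  | add x y _ _ hx hy =>
    obtain ⟨x', hx1, hx2⟩ := hx
    obtain ⟨y', hy1, hy2⟩ := hy
    exact ⟨x' + y', Subalgebra.add_mem _ hx1 hy1, fun z => by rw [map_add, hx2, hy2]; rfl⟩
  | mul x y _ _ hx hy =>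
    obtain ⟨x', hx1, hx2⟩ := hx
    obtain ⟨y', hy1, hy2⟩ := hy
    exact ⟨x' * y', Subalgebra.mul_mem _ hx1 hy1, fun z => by rw [map_mul, hx2, hy2]; rfl⟩

theorem norm_le_of {φ : Hb X} {C : ℝ} (hC : 0 ≤ C) (h : ∀ z, ‖evH z φ‖ ≤ C) : ‖φ‖ ≤ C :=
  (BoundedContinuousFunction.norm_le hC).2 h

/-- uniform limits -/
theorem clo {𝓡 : Set (X → ℂ)} (h𝓡 : ∀ h ∈ 𝓡, Bh h) {G : X → ℂ} {G' : Hb X}
    (hG : ∀ z : ball (0 : X) 1, evH z G' = G z) {a : X → ℂ} (ha : a ∈ Cl (insert G 𝓡)) :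
    ∃ a' ∈ CA 𝓡 G', ∀ z : ball (0 : X) 1, evH z a' = a z := by
  have h1 : ∀ k : ℕ, ∃ b' ∈ Algebra.adjoin ℂ (insert G' (SR 𝓡)), ∀ z : ball (0 : X) 1,
      ‖a z - evH z b'‖ ≤ 1 / ((k : ℝ) + 1) := by
    intro k
    obtain ⟨b, hb, hb2⟩ := ha (1 / ((k : ℝ) + 1)) (by positivity)
    obtain ⟨b', hb', hb3⟩ := adj h𝓡 hG hb
    exact ⟨b', hb', fun z => by rw [hb3]; exact hb2 z z.2⟩
  choose b' hb' hb2 using h1
  have hlim : Tendsto (fun k : ℕ => 2 * (1 / ((k : ℝ) + 1))) atTop (𝓝 0) := by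
    have := tendsto_one_div_add_atTop_nhds_zero_nat (𝕜 := ℝ)
    simpa using this.const_mul 2
  have hc : CauchySeq b' := by
    refine cauchySeq_of_le_tendsto_0 (fun k : ℕ => 2 * (1 / ((k : ℝ) + 1))) (fun i j N hi hj => ?_)
      hlim
    rw [dist_eq_norm]
    refine norm_le_of (by positivity) (fun z => ?_)
    rw [map_sub]
    have h2 : evH z (b' i) - evH z (b' j) = (a z - evH z (b' j)) - (a z - evH z (b' i)) := by ring
    rw [h2]
    refine (norm_sub_le _ _).trans ?_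
    have h3 := hb2 i z
    have h4 := hb2 j z
    have h5 : 1 / ((i : ℝ) + 1) ≤ 1 / ((N : ℝ) + 1) := by
      have : (N : ℝ) ≤ i := by exact_mod_cast hi
      gcongr
    have h6 : 1 / ((j : ℝ) + 1) ≤ 1 / ((N : ℝ) + 1) := by
      have : (N : ℝ) ≤ j := by exact_mod_cast hj
      gcongr
    linarith
  obtain ⟨a', ha'⟩ := cauchySeq_tendsto_of_complete hc
  refine ⟨a', ?_, fun z => ?_⟩
  · exact (Subalgebra.isClosed_topologicalClosure _).mem_of_tendsto ha'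
      (Eventually.of_forall fun k => Subalgebra.le_topologicalClosure _ (hb' k))
  · have h2 : Tendsto (fun k => evH z (b' k)) atTop (𝓝 (evH z a')) := by
      rw [tendsto_iff_norm_sub_tendsto_zero]
      have h3 := tendsto_iff_norm_sub_tendsto_zero.1 ha'
      refine squeeze_zero (fun _ => norm_nonneg _) (fun k => ?_) h3
      rw [← map_sub]
      exact evH_le z _
    have h3 : Tendsto (fun k => evH z (b' k)) atTop (𝓝 (a z)) := by
      rw [tendsto_iff_norm_sub_tendsto_zero]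
      refine squeeze_zero (fun _ => norm_nonneg _) (fun k => ?_)
        tendsto_one_div_add_atTop_nhds_zero_nat
      rw [norm_sub_rev]
      exact hb2 k z
    exact tendsto_nhds_unique h2 h3

/-- **The corona problem is local over the closed algebra generated by `𝓡`.** -/
theorem main {𝓡 : Set (X → ℂ)} (T : Tup 𝓡) (h𝓡 : ∀ h ∈ 𝓡, Bh h) {N : ℕ}
    (F : Fin N → X → ℂ) (hF : ∀ j, Bh (F j))
    (hloc : ∀ 𝒰 : Ultrafilter X, ball (0 : X) 1 ∈ 𝒰 →
      ∃ (G : X → ℂ) (S : Finset (Fin N)) (a : Fin N → X → ℂ) (c : ℝ), Bh G ∧ 0 < c ∧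
        (∀ᶠ z in Fib 𝓡 𝒰, c ≤ ∑ j ∈ S, ‖F j z‖) ∧
        ∀ j ∈ S, a j ∈ Cl (insert G 𝓡) ∧ Tendsto (fun z => F j z - a j z) (Fib 𝓡 𝒰) (𝓝 0)) :
    ∃ g : Fin N → X → ℂ, (∀ j, Bh (g j)) ∧ ∀ z ∈ ball (0 : X) 1, ∑ j, F j z * g j z = 1 := by
  classical
  choose Φ hΦ using fun j => (hF j).exists
  suffices h : ∃ g : Fin N → Hb X, ∑ j, Φ j * g j = 1 by
    obtain ⟨g, hg⟩ := h
    choose g' hg' hg2 using fun j => (g j).2
    refine ⟨g', fun j => ⟨hg' j, ‖g j‖, fun z hz => ?_⟩, fun z hz => ?_⟩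
    · have h1 := evH_le ⟨z, hz⟩ (g j)
      have h2 : evH ⟨z, hz⟩ (g j) = g' j z := hg2 j ⟨z, hz⟩
      rwa [h2] at h1
    · have h1 := congrArg (evH ⟨z, hz⟩) hg
      rw [map_sum, map_one] at h1
      rw [← h1]
      refine Finset.sum_congr rfl fun j _ => ?_
      rw [map_mul, hΦ]
      have h2 : evH ⟨z, hz⟩ (g j) = g' j z := hg2 j ⟨z, hz⟩
      rw [h2]
  by_contra hno
  obtain ⟨φ, hφ⟩ := exists_char Φ hno
  -- the ultrafilter
  obtain ⟨ℱ₀, hne₀, h₀⟩ := alg_ct T 0 φ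
  set 𝒰₀ : Ultrafilter (ball (0 : X) 1) := Ultrafilter.of ℱ₀ with h𝒰₀
  have hle₀ : (𝒰₀ : Filter (ball (0 : X) 1)) ≤ ℱ₀ := Ultrafilter.of_le ℱ₀
  set 𝒰 : Ultrafilter X := 𝒰₀.map Subtype.val with h𝒰
  have hball : ball (0 : X) 1 ∈ 𝒰 := by
    rw [h𝒰, Ultrafilter.mem_map]
    exact Filter.univ_mem' fun z => z.2
  obtain ⟨G, S, a, c, hG, hc, hlow, hS⟩ := hloc 𝒰 hball
  -- the filters of the character are finer than the fibre of the ultrafilter
  have hfib : ∀ (G' : Hb X) (ℱ : Filter (ball (0 : X) 1)),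
      (∀ a ∈ CA 𝓡 G', Tendsto (fun z => evH z a) ℱ (𝓝 (φ a))) →
      Tendsto (Subtype.val : ball (0 : X) 1 → X) ℱ (Fib 𝓡 𝒰) := by
    intro G' ℱ hℱ
    unfold Fib
    rw [tendsto_inf, tendsto_principal]
    refine ⟨Eventually.of_forall fun z => z.2, ?_⟩
    simp only [tendsto_iInf, tendsto_comap_iff]
    intro h hh d hd
    obtain ⟨ψ, hψ⟩ := (h𝓡 h hh).exists
    have hmem : ∀ G'', ψ ∈ CA 𝓡 G'' := fun G'' =>
      Subalgebra.le_topologicalClosure _ (Algebra.subset_adjoin (mem_insert_of_mem _ ⟨h, hh, hψ⟩))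
    have h1 : Tendsto (fun z => evH z ψ) 𝒰₀ (𝓝 (φ ψ)) := (h₀ _ (hmem 0)).mono_left hle₀
    have h2 : Tendsto (fun z : ball (0 : X) 1 => h z) 𝒰₀ (𝓝 d) := by
      have h3 : Tendsto h (Filter.map Subtype.val (𝒰₀ : Filter (ball (0 : X) 1))) (𝓝 d) := hd
      exact tendsto_map'_iff.1 h3
    have h3 : d = φ ψ := by
      refine tendsto_nhds_unique h2 (h1.congr fun z => hψ z)
    rw [h3]
    exact (hℱ _ (hmem G')).congr fun z => hψ z
  have hself : ∀ G : Hb X, G ∈ CA 𝓡 G := fun G =>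
    Subalgebra.le_topologicalClosure _ (Algebra.subset_adjoin (mem_insert _ _))
  obtain ⟨G', hG'⟩ := hG.exists
  have ha : ∀ j, ∃ a' : Hb X, j ∈ S → a' ∈ CA 𝓡 G' ∧ ∀ z : ball (0 : X) 1, evH z a' = a j z := by
    intro j
    by_cases hj : j ∈ S
    · obtain ⟨a', h1, h2⟩ := clo h𝓡 hG' (hS j hj).1
      exact ⟨a', fun _ => ⟨h1, h2⟩⟩
    · exact ⟨0, fun h => absurd h hj⟩
  choose A hA using ha
  have hu : ∀ j ∈ S, φ (A j) = 0 := by
    intro j hj
    obtain ⟨ℱ, hne, hℱ⟩ := alg_ct T (Φ j - A j) φ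
    have h1 := hℱ _ (hself (Φ j - A j))
    have h2 : Tendsto (fun z => evH z (Φ j - A j)) ℱ (𝓝 0) := by
      have h3 := ((hS j hj).2).comp (hfib _ _ hℱ)
      refine h3.congr (fun z => ?_)
      rw [map_sub, hΦ, (hA j hj).2]
      rfl
    have h3 := tendsto_nhds_unique h1 h2
    rw [map_sub, hφ j, zero_sub, neg_eq_zero] at h3
    exact h3
  obtain ⟨ℱ, hne, hℱ⟩ := alg_ct T G' φ
  have hf := hfib _ _ hℱ
  have h1 : ∀ j ∈ S, Tendsto (fun z : ball (0 : X) 1 => ‖F j z‖) ℱ (𝓝 0) := by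
    intro j hj
    have h2 := hℱ _ (hA j hj).1
    rw [hu j hj] at h2
    have h3 := ((hS j hj).2).comp hf
    have h4 := (h3.add h2).norm
    rw [add_zero, norm_zero] at h4
    refine h4.congr (fun z => ?_)
    rw [(hA j hj).2]
    simp
  have h2 : Tendsto (fun z : ball (0 : X) 1 => ∑ j ∈ S, ‖F j z‖) ℱ (𝓝 (∑ j ∈ S, (0 : ℝ))) :=
    tendsto_finsetSum _ h1
  rw [Finset.sum_const_zero] at h2
  have h3 : c ≤ 0 := ge_of_tendsto h2 (hf hlow)
  linarith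

end Pool.Agent.R314.CorLoc
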