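import Pool.Agent.H731R6.Bc.Fin
import Pool.Agent.H731R6.Bc.HP5

set_option autoImplicit false

/-!
# The boundary cluster in the half-plane: measurability, point probabilities, asymptotics
-/

namespace Pool.Agent.R314

open MeasureTheory Filter Topology H731B

lemma meas_adj (p r : ℤ × ℕ) : MeasurableSet {ω : ℤ × ℕ → Bool | OpenAdjH ω p r} := by
  have h : {ω : ℤ × ℕ → Bool | OpenAdjH ω p r} = ⋃ (a : ℤ), ⋃ (t : ℕ),
      {ω : ℤ × ℕ → Bool | ω (a, t) = true ∧
        ((Even (a + t) ∧ p = (a, t) ∧ r = (a + 1, t + 1)) ∨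
          (¬ Even (a + t) ∧ p = (a + 1, t) ∧ r = (a, t + 1)))} := by
    ext ω
    simp only [OpenAdjH, Set.mem_setOf_eq, Set.mem_iUnion]
  rw [h]
  refine MeasurableSet.iUnion fun a => MeasurableSet.iUnion fun t => ?_
  have hm : Measurable fun ω : ℤ × ℕ → Bool => ω (a, t) := measurable_pi_apply (a, t)
  have h2 : MeasurableSet {ω : ℤ × ℕ → Bool | ω (a, t) = true} :=
    hm (measurableSet_singleton true)
  exact h2.inter (MeasurableSet.const _)

/-- joined within `n` steps -/
def Within (ω : ℤ × ℕ → Bool) : ℕ → ℤ × ℕ → ℤ × ℕ → Prop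
  | 0, p, r => p = r
  | n + 1, p, r => ∃ z, Within ω n p z ∧ (z = r ∨ OpenAdjH ω z r ∨ OpenAdjH ω r z)

lemma meas_within (n : ℕ) (p r : ℤ × ℕ) : MeasurableSet {ω : ℤ × ℕ → Bool | Within ω n p r} := by
  induction n generalizing r with
  | zero => exact MeasurableSet.const _
  | succ n ih =>
    have h : {ω : ℤ × ℕ → Bool | Within ω (n + 1) p r} = ⋃ z : ℤ × ℕ,
        ({ω : ℤ × ℕ → Bool | Within ω n p z} ∩
          ({ω : ℤ × ℕ → Bool | z = r} ∪ ({ω : ℤ × ℕ → Bool | OpenAdjH ω z r} ∪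
            {ω : ℤ × ℕ → Bool | OpenAdjH ω r z}))) := by
      ext ω
      simp only [Within, Set.mem_setOf_eq, Set.mem_iUnion, Set.mem_inter_iff, Set.mem_union]
    rw [h]
    exact MeasurableSet.iUnion fun z => (ih z).inter
      ((MeasurableSet.const _).union ((meas_adj z r).union (meas_adj r z)))

lemma eqv_within {ω : ℤ × ℕ → Bool} {p r : ℤ × ℕ} :
    Relation.EqvGen (OpenAdjH ω) p r ↔ ∃ n, Within ω n p r := by
  constructor
  · intro h
    rw [← Relation.EqvGen.reflTransGen_symmGen] at h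
    induction h with
    | refl => exact ⟨0, rfl⟩
    | tail _ h2 ih =>
      obtain ⟨n, hn⟩ := ih
      exact ⟨n + 1, _, hn, Or.inr h2⟩
  · rintro ⟨n, hn⟩
    induction n generalizing r with
    | zero => exact hn ▸ Relation.EqvGen.refl _
    | succ n ih =>
      obtain ⟨z, h1, h2⟩ := hn
      refine Relation.EqvGen.trans _ _ _ (ih h1) ?_
      rcases h2 with rfl | h2 | h2
      · exact Relation.EqvGen.refl _
      · exact Relation.EqvGen.rel _ _ h2
      · exact Relation.EqvGen.symm _ _ (Relation.EqvGen.rel _ _ h2)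

lemma meas_mem (b : ℤ) : MeasurableSet {ω : ℤ × ℕ → Bool | b ∈ bclH ω} := by
  have h : {ω : ℤ × ℕ → Bool | b ∈ bclH ω} = ⋃ n : ℕ, {ω | Within ω n (0, 0) (b, 0)} := by
    ext ω
    simp only [bclH, Set.mem_setOf_eq, Set.mem_iUnion]
    exact eqv_within
  rw [h]
  exact MeasurableSet.iUnion fun n => meas_within n _ _

lemma meas_encard (k : ℕ) : MeasurableSet {ω : ℤ × ℕ → Bool | (k : ℕ∞) ≤ (bclH ω).encard} := by
  have h : {ω : ℤ × ℕ → Bool | (k : ℕ∞) ≤ (bclH ω).encard} =
      ⋃ (S : Finset ℤ), ⋃ (_ : S.card = k), ⋂ (b ∈ S), {ω | b ∈ bclH ω} := by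
    ext ω
    simp only [Set.mem_setOf_eq, Set.mem_iUnion, Set.mem_iInter, exists_prop]
    constructor
    · intro h
      obtain ⟨T, hT, hT2⟩ := Set.exists_subset_encard_eq h
      have hf : T.Finite := by
        apply Set.finite_of_encard_eq_coe hT2
      refine ⟨hf.toFinset, ?_, fun b hb => hT (hf.mem_toFinset.1 hb)⟩
      have := hf.encard_eq_coe_toFinset_card
      rw [hT2] at this
      exact_mod_cast this.symm
    · rintro ⟨S, hS, h⟩
      rw [← hS, ← Set.encard_coe_eq_coe_finsetCard]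
      exact Set.encard_le_encard fun b hb => h b hb
  rw [h]
  exact MeasurableSet.iUnion fun S => MeasurableSet.iUnion fun _ =>
    MeasurableSet.biInter S.countable_toSet fun b _ => meas_mem b

instance : IsProbabilityMeasure percH := by unfold percH; infer_instance

/-- point probabilities -/
theorem half_point {k : ℕ} (hk : 1 ≤ k) : percH.real {ω | (bclH ω).encard = k} =
    3 * k * ((2 * k).choose k : ℝ) / (2 * (k + 1) * (2 * k - 1) * 4 ^ k) := by
  have h1 : {ω : ℤ × ℕ → Bool | (bclH ω).encard = k} =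
      {ω | (k : ℕ∞) ≤ (bclH ω).encard} \ {ω | ((k + 1 : ℕ) : ℕ∞) ≤ (bclH ω).encard} := by
    ext ω
    simp only [Set.mem_setOf_eq, Set.mem_diff, not_le]
    constructor
    · intro h
      rw [h]
      exact ⟨le_rfl, by exact_mod_cast Nat.lt_succ_self k⟩
    · rintro ⟨h2, h3⟩
      refine le_antisymm ?_ h2
      have : ((k + 1 : ℕ) : ℕ∞) = (k : ℕ∞) + 1 := by push_cast; rfl
      rw [this] at h3
      exact ENat.lt_coe_add_one_iff.1 h3
  have h2 : {ω : ℤ × ℕ → Bool | ((k + 1 : ℕ) : ℕ∞) ≤ (bclH ω).encard} ⊆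
      {ω | (k : ℕ∞) ≤ (bclH ω).encard} := by
    intro ω hω
    have h3 : ((k + 1 : ℕ) : ℕ∞) ≤ (bclH ω).encard := hω
    exact le_trans (by exact_mod_cast Nat.le_succ k) h3
  rw [h1, measureReal_diff h2 (meas_encard _), half_plane hk, half_plane (by omega : 1 ≤ k + 1)]
  have h3 := F1.binom_step k
  have hk1 : (1 : ℝ) ≤ k := by exact_mod_cast hk
  have h4 : (2 * (k : ℝ) - 1) ≠ 0 := by linarith
  have h5 : (k : ℝ) + 1 ≠ 0 := by linarith
  have h6 : (2 * (k : ℝ) + 1) ≠ 0 := by linarith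
  have h7 : (((2 * (k + 1)).choose (k + 1) : ℕ) : ℝ) =
      2 * (2 * k + 1) * ((2 * k).choose k : ℕ) / (k + 1) := by
    rw [eq_div_iff h5]; exact h3
  rw [h7]
  push_cast
  have h8 : (2 * ((k : ℝ) + 1) - 1) = 2 * k + 1 := by ring
  have h9 : (4 : ℝ) ^ k ≠ 0 := by positivity
  rw [h8, pow_succ]
  generalize (4 : ℝ) ^ k = Q at *
  generalize (((2 * k).choose k : ℕ) : ℝ) = C at *
  rw [div_mul_eq_mul_div, div_div, div_sub_div _ _ (mul_ne_zero h4 h9)
    (mul_ne_zero h5 (mul_ne_zero h6 (mul_ne_zero h9 (by norm_num)))),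
    div_eq_div_iff (mul_ne_zero (mul_ne_zero h4 h9)
      (mul_ne_zero h5 (mul_ne_zero h6 (mul_ne_zero h9 (by norm_num)))))
      (mul_ne_zero (mul_ne_zero (mul_ne_zero (by norm_num) h5) h4) h9)]
  ring

/-- asymptotics of the tail -/
theorem half_tail : Tendsto (fun k : ℕ => Real.sqrt k *
    percH.real {ω | (k : ℕ∞) ≤ (bclH ω).encard}) atTop (𝓝 (3 / (2 * Real.sqrt Real.pi))) := by
  refine hi_tendsto.congr' ?_
  filter_upwards [eventually_ge_atTop 1] with k hk
  rw [half_plane hk]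
  unfold hi
  ring

/-- the boundary cluster is finite -/
theorem half_finite : ∀ᵐ ω ∂percH, (bclH ω).Finite := by
  have h1 : Tendsto (fun k : ℕ => percH.real {ω | (k : ℕ∞) ≤ (bclH ω).encard}) atTop (𝓝 0) := by
    have h2 : Tendsto (fun k : ℕ => (Real.sqrt k)⁻¹) atTop (𝓝 0) :=
      tendsto_inv_atTop_zero.comp (Real.tendsto_sqrt_atTop.comp tendsto_natCast_atTop_atTop)
    have h3 := half_tail.mul h2
    rw [mul_zero] at h3
    refine h3.congr' ?_
    filter_upwards [eventually_ge_atTop 1] with k hk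
    have : Real.sqrt k ≠ 0 := by
      have : (0:ℝ) < k := by exact_mod_cast hk
      positivity
    field_simp
  have h4 : percH.real {ω | ¬ (bclH ω).Finite} ≤ 0 := by
    refine ge_of_tendsto h1 (Eventually.of_forall fun k => ?_)
    refine measureReal_mono ?_ (measure_ne_top _ _)
    intro ω hω
    have : (bclH ω).encard = ⊤ := Set.encard_eq_top_iff.2 hω
    simp only [Set.mem_setOf_eq, this]
    exact le_top
  have h5 : percH {ω | ¬ (bclH ω).Finite} = 0 := by
    have h6 := le_antisymm h4 measureReal_nonneg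
    rw [measureReal_def, ENNReal.toReal_eq_zero_iff] at h6
    exact h6.resolve_right (measure_ne_top _ _)
  exact h5

end Pool.Agent.R314
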